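import Pool.Agent.MP_6a4325_al.H62.Spec

/-! Row ENG: separation of subgroups by subgroups of finite index. -/

set_option autoImplicit false

namespace Pool.Agent.MP_6a4325_al.H98

open H62 MonoidAlgebra
open Matrix hiding single

/-- a divisible element of a finitely generated abelian group is trivial -/
theorem div_triv {M : Type} [CommGroup M] [Group.FG M] {x : M}
    (h : ∀ m : ℕ, 0 < m → ∃ y, y ^ m = x) : x = 1 := by
  have : Module.Finite ℤ (Additive M) := Module.Finite.iff_addGroup_fg.2 inferInstance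
  have key : ∀ t : ℕ, 0 < t → ∃ k : ℤ, (k * t) • Additive.ofMul x = Additive.ofMul x := by
    intro t ht
    obtain ⟨r, hr⟩ := ((Ideal.span {(t : ℤ)}).mem_iInf_smul_pow_eq_bot_iff
      (Additive.ofMul x)).1 (by
        refine (Submodule.mem_iInf _).2 fun i => ?_
        obtain ⟨y, hy⟩ := h (t ^ i) (pow_pos ht i)
        have e : Additive.ofMul x = ((t : ℤ) ^ i) • Additive.ofMul y := by
          rw [← hy, ofMul_pow, ← Nat.cast_pow, natCast_zsmul]
        rw [e]
        exact Submodule.smul_mem_smul (Ideal.pow_mem_pow (Ideal.mem_span_singleton_self _) i)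
          trivial)
    obtain ⟨k, hk⟩ := Ideal.mem_span_singleton'.1 r.2
    exact ⟨k, by rw [hk]; exact hr⟩
  obtain ⟨k, hk⟩ := key 2 two_pos
  have h1 : (k * 2 - 1) • Additive.ofMul x = 0 := by
    rw [sub_smul, one_smul]
    exact sub_eq_zero.2 hk
  obtain ⟨l, hl⟩ := key (k * 2 - 1).natAbs (by omega)
  have h2 : (((k * 2 - 1).natAbs : ℕ) : ℤ) • Additive.ofMul x = 0 := by
    rcases Int.natAbs_eq (k * 2 - 1) with e | e
    · rw [← e, h1]
    · rw [show (((k * 2 - 1).natAbs : ℕ) : ℤ) = -(k * 2 - 1) by omega, neg_smul, h1, neg_zero]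
  rw [mul_smul, h2, smul_zero] at hl
  exact ofMul_eq_zero.1 hl.symm

/-- subgroups of a finitely generated abelian-by-finite group are separable -/
theorem sep {Γ : Type} [Group Γ] [Group.FG Γ] (h : VA Γ) (C : Subgroup Γ) {γ : Γ} (hγ : γ ∉ C) :
    ∃ D : Subgroup Γ, C ≤ D ∧ D.FiniteIndex ∧ γ ∉ D := by
  obtain ⟨A, hN, hF, hc⟩ := h
  let : CommGroup A :=
    { (inferInstance : Group A) with mul_comm := fun a b => Subtype.ext (hc a a.2 b b.2) }
  let P : ℕ → Subgroup Γ := fun m => (powMonoidHom (α := A) m).range.map A.subtype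
  have hP : ∀ m x, x ∈ P m ↔ ∃ a : A, (a : Γ) ^ m = x := fun m x => by
    constructor
    · rintro ⟨_, ⟨a, rfl⟩, rfl⟩
      exact ⟨a, rfl⟩
    · rintro ⟨a, rfl⟩
      exact ⟨_, ⟨a, rfl⟩, rfl⟩
  have nP : ∀ m, (P m).Normal := fun m => ⟨fun x hx g => by
    obtain ⟨a, rfl⟩ := (hP m x).1 hx
    exact (hP m _).2 ⟨⟨g * a * g⁻¹, hN.conj_mem _ a.2 g⟩, conj_pow⟩⟩
  have fP : ∀ m, 0 < m → (P m).FiniteIndex := fun m hm => ⟨by
    rw [Subgroup.index_map_subtype]
    exact mul_ne_zero (Subgroup.finiteIndex_range_powMonoidHom_of_fg A hm.ne').index_ne_zero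
      hF.index_ne_zero⟩
  by_contra hn
  have hall : ∀ m, 0 < m → ∃ c ∈ C, ∃ a : A, c * (a : Γ) ^ m = γ := fun m hm => by
    have := nP m
    have := fP m hm
    have : γ ∈ C ⊔ P m := by_contra fun h' =>
      hn ⟨C ⊔ P m, le_sup_left, Subgroup.finiteIndex_of_le le_sup_right, h'⟩
    obtain ⟨c, hc', z, hz, e⟩ := Subgroup.mem_sup_of_normal_right.1 this
    obtain ⟨a, rfl⟩ := (hP m z).1 hz
    exact ⟨c, hc', a, e⟩
  obtain ⟨c, hc', a, e⟩ := hall 1 one_pos
  rw [pow_one] at e
  have h1 : (QuotientGroup.mk a : A ⧸ C.subgroupOf A) = 1 := by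
    refine div_triv fun m hm => ?_
    obtain ⟨c', hc'', b, e'⟩ := hall m hm
    refine ⟨QuotientGroup.mk b, ?_⟩
    rw [← QuotientGroup.mk_pow, eq_comm, QuotientGroup.eq, mul_comm, Subgroup.mem_subgroupOf]
    have e2 : ((b ^ m * a⁻¹ : A) : Γ) = c'⁻¹ * c := by
      push_cast
      rw [eq_inv_mul_of_mul_eq e', ← e]
      group
    rw [e2]
    exact mul_mem (inv_mem hc'') hc'
  exact hγ (e ▸ mul_mem hc' (Subgroup.mem_subgroupOf.1 ((QuotientGroup.eq_one_iff a).1 h1)))

/-- the same statement through a normal subgroup -/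
theorem sep' {G : Type} [Group G] [Group.FG G] (N : Subgroup G) [N.Normal] (h : VA (G ⧸ N))
    {C : Subgroup G} (hN : N ≤ C) {g : G} (hg : g ∉ C) :
    ∃ D : Subgroup G, C ≤ D ∧ D.FiniteIndex ∧ g ∉ D := by
  obtain ⟨D, h1, h2, h3⟩ := sep h (C.map (QuotientGroup.mk' N)) (γ := QuotientGroup.mk' N g) (by
    intro h'
    have : g ∈ (C.map (QuotientGroup.mk' N)).comap (QuotientGroup.mk' N) := h'
    rw [QuotientGroup.comap_map_mk', sup_eq_right.2 hN] at this
    exact hg this)
  refine ⟨D.comap (QuotientGroup.mk' N), Subgroup.map_le_iff_le_comap.1 h1, ⟨?_⟩, h3⟩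
  rw [Subgroup.index_comap_of_surjective _ (QuotientGroup.mk'_surjective N)]
  exact h2.index_ne_zero

variable {G : Type} [Group G]

/-- right translation of functions -/
def rT : G →* Module.End ℚ (G → ℚ) where
  toFun h := LinearMap.funLeft ℚ ℚ (· * h)
  map_one' := LinearMap.ext fun f => funext fun g => by simp [LinearMap.funLeft_apply]
  map_mul' h h' := LinearMap.ext fun f => funext fun g => by
    simp [LinearMap.funLeft_apply, mul_assoc]

/-- the elements that annihilate a function -/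
noncomputable def kil (φ : G → ℚ) : Ideal (MonoidAlgebra ℚ G) where
  carrier := {a | MonoidAlgebra.lift ℚ (Module.End ℚ (G → ℚ)) G rT a φ = 0}
  add_mem' := fun {a b} ha hb => by
    simp only [Set.mem_ofPred_eq, map_add, LinearMap.add_apply] at ha hb ⊢
    rw [ha, hb, add_zero]
  zero_mem' := by simp
  smul_mem' := fun c a ha => by
    simp only [Set.mem_ofPred_eq, smul_eq_mul, map_mul, Module.End.mul_apply] at ha ⊢
    rw [ha, map_zero]

theorem sub_mem_kil (φ : G → ℚ) (h : G) (c : ℚ) :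
    single h (1 : ℚ) - single 1 c ∈ kil φ ↔ ∀ g, φ (g * h) = c * φ g := by
  change MonoidAlgebra.lift ℚ (Module.End ℚ (G → ℚ)) G rT _ φ = 0 ↔ _
  rw [map_sub, lift_single, lift_single, funext_iff]
  simp [rT, LinearMap.funLeft_apply, sub_eq_zero]

theorem one_notMem_kil {φ : G → ℚ} (h : φ 1 ≠ 0) : kil φ ≠ ⊤ := fun e => by
  have : (1 : MonoidAlgebra ℚ G) ∈ kil φ := e ▸ Submodule.mem_top
  change MonoidAlgebra.lift ℚ (Module.End ℚ (G → ℚ)) G rT _ φ = 0 at this
  rw [map_one] at this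
  exact h (congrFun this 1)

theorem hw_self (h : HW G) : W ℚ G ∧ W1 G ∧ Amen G :=
  h ⊤ G (Subgroup.subtype ⊤) fun g => ⟨⟨g, trivial⟩, rfl⟩

/-- the affine representation attached to a cocycle -/
theorem affine {K : Type} [Field K] {n : ℕ} (ρ : G →* Matrix (Fin n) (Fin n) K)
    (β : G → Fin n → K) (hβ : ∀ g h, β (g * h) = β g + ρ g *ᵥ β h) :
    ∃ ρ' : G →* Matrix (Fin (n + 1)) (Fin (n + 1)) K, ∀ g ∈ ρ'.ker, β g = 0 := by
  have h1 : β 1 = 0 := by
    have := hβ 1 1
    rw [one_mul, map_one, one_mulVec] at this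
    exact left_eq_add.1 this
  let τ : G →* Matrix (Fin n ⊕ Fin 1) (Fin n ⊕ Fin 1) K :=
    { toFun := fun g => fromBlocks (ρ g) (replicateCol (Fin 1) (β g)) 0 1
      map_one' := by rw [map_one, h1, replicateCol_zero, fromBlocks_one]
      map_mul' := fun g h => by
        rw [fromBlocks_multiply, map_mul, hβ, replicateCol_add, replicateCol_mulVec, add_comm]
        simp }
  refine ⟨(reindexAlgEquiv K K finSumFinEquiv).toMonoidHom.comp τ, fun g hg => ?_⟩
  have h2 : τ g = 1 := (reindexAlgEquiv K K finSumFinEquiv).injective (by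
    rw [map_one]; exact hg)
  funext i
  have := congrFun (congrFun h2 (Sum.inl i)) (Sum.inr 0)
  simpa [τ] using this

theorem eng : SSpecM → SLin → SEng := by
  classical
  intro hS hL G _ hG hW C hC
  obtain ⟨S, hS'⟩ := hG.out
  let s : Fin S.card → G := fun i => (S.equivFin.symm i : G)
  have hs : ∀ x ∈ (S : Set G), ∃ i, s i = x := fun x hx => ⟨S.equivFin ⟨x, hx⟩, by simp [s]⟩
  let φ : G → ℚ := fun g => if g ∈ C then 1 else 0
  let π : (Fin S.card → MonoidAlgebra ℚ G) →ₗ[MonoidAlgebra ℚ G] MonoidAlgebra ℚ G :=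
    Fintype.linearCombination (MonoidAlgebra ℚ G) fun i => single (s i) 1 - single 1 1
  have hπ : ∀ i, π (Pi.single i 1) = single (s i) 1 - single 1 1 := fun i => by
    simp [π]
  have hφ : ∀ h, single h (1 : ℚ) - single 1 1 ∈ kil φ ↔ h ∈ C := fun h => by
    rw [sub_mem_kil]
    constructor
    · intro h'
      by_contra hn
      simpa [φ, hn, C.one_mem] using h' 1
    · intro h' g
      simp [φ, C.mul_mem_cancel_right h']
  have hx : ∀ g : G, ∃ x, π x = single g 1 - single 1 1 := fun g => by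
    have hg : g ∈ Subgroup.closure (S : Set G) := hS' ▸ Subgroup.mem_top g
    induction hg using Subgroup.closure_induction with
    | mem x hx =>
      obtain ⟨i, rfl⟩ := hs x hx
      exact ⟨_, hπ i⟩
    | one => exact ⟨0, by simp⟩
    | mul g h _ _ hg hh =>
      obtain ⟨x, hx⟩ := hg
      obtain ⟨y, hy⟩ := hh
      refine ⟨x + single g (1 : ℚ) • y, ?_⟩
      rw [map_add, map_smul, hx, hy, smul_eq_mul, mul_sub, single_mul_single, single_mul_single]
      simp
    | inv g _ hg =>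
      obtain ⟨x, hx⟩ := hg
      refine ⟨-(single g⁻¹ (1 : ℚ) • x), ?_⟩
      rw [map_neg, map_smul, hx, smul_eq_mul, mul_sub, single_mul_single, single_mul_single]
      simp
  choose x hx using hx
  obtain ⟨K, _, _, _, n, ρ₀, v₀, hv₀, h₀⟩ := (hw_self hW).1 S.card (Submodule.comap π (kil φ)) (by
    intro e
    refine hC (top_le_iff.1 fun g _ => (hφ g).1 ?_)
    rw [← hx]
    exact (show x g ∈ Submodule.comap π (kil φ) from e ▸ Submodule.mem_top))
  obtain ⟨ρ, v, hv, h₁⟩ := hS G hG K n S.card ρ₀ v₀ hv₀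
  let B : (Fin S.card → MonoidAlgebra ℚ G) → Fin n → Qb := fun y => ∑ i, act ℚ ρ (y i) *ᵥ v i
  have Badd : ∀ y z, B (y + z) = B y + B z := fun y z => by
    simp only [B, Pi.add_apply, map_add, add_mulVec, Finset.sum_add_distrib]
  have Bsmul : ∀ (g : G) y, B (single g (1 : ℚ) • y) = ρ g *ᵥ B y := fun g y => by
    simp only [B, Pi.smul_apply, smul_eq_mul, map_mul, lift_single, one_smul, mulVec_sum,
      mulVec_mulVec]
  have Bker : ∀ y, π y ∈ kil φ → B y = 0 := fun y hy => h₁ y (h₀ y hy)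
  have Beq : ∀ y z, π y = π z → B y = B z := fun y z e => by
    rw [← sub_add_cancel y z, Badd, Bker (y - z) (by rw [map_sub, e, sub_self]; exact zero_mem _),
      zero_add]
  have hβ : ∀ g h, B (x (g * h)) = B (x g) + ρ g *ᵥ B (x h) := fun g h => by
    rw [← Bsmul, ← Badd]
    refine Beq _ _ ?_
    rw [map_add, map_smul, hx, hx, hx, smul_eq_mul, mul_sub, single_mul_single, single_mul_single]
    simp
  obtain ⟨ρ', hρ'⟩ := affine ρ (fun g => B (x g)) hβ
  have h1 : B (x 1) = 0 := hρ' 1 (one_mem _)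
  let Z : Subgroup G :=
    { carrier := {g | B (x g) = 0}
      mul_mem' := fun {g h} hg hh => by
        simp only [Set.mem_ofPred_eq] at hg hh ⊢
        rw [hβ, hg, hh, mulVec_zero, add_zero]
      one_mem' := h1
      inv_mem' := fun {g} hg => by
        simp only [Set.mem_ofPred_eq] at hg ⊢
        have := hβ g⁻¹ g
        rwa [inv_mul_cancel, h1, hg, mulVec_zero, add_zero, eq_comm] at this }
  obtain ⟨i, hi⟩ := Function.ne_iff.1 hv
  have hZ : s i ∉ Z := fun h => hi (by
    have e : B (x (s i)) = B (Pi.single i 1) := Beq _ _ (by rw [hx, hπ])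
    have e' : B (Pi.single i 1) = v i := by
      simp only [B]
      rw [Finset.sum_eq_single i (fun j _ hj => by simp [hj]) (by simp)]
      simp
    rw [← e', ← e]
    exact h)
  obtain ⟨D, h2, h3, h4⟩ := sep' ρ'.ker (hL G hG hW _ ρ') (C := Z) hρ' hZ
  refine ⟨D, fun c hc => h2 (Bker _ ?_), fun e => h4 (e ▸ Subgroup.mem_top _), h3⟩
  rw [hx]
  exact (hφ c).2 hc

theorem res : SSpec → SLin → SRes := by
  classical
  intro hS hL G _ hG hW g hg
  have key : ∃ (x : MonoidAlgebra ℚ G) (c : ℚ), c ≠ 0 ∧ Ideal.span {x} ≠ ⊤ ∧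
      ∀ (n : ℕ) (ρ : G →* Matrix (Fin n) (Fin n) Qb), ρ g = 1 → act ℚ ρ x = c • 1 := by
    by_cases hf : IsOfFinOrder g
    · refine ⟨∑ j ∈ Finset.range (orderOf g), single g (1 : ℚ) ^ j, orderOf g,
        Nat.cast_ne_zero.2 hf.orderOf_pos.ne', fun e => ?_, fun n ρ h => ?_⟩
      · obtain ⟨a, ha⟩ := Ideal.mem_span_singleton'.1 ((Ideal.eq_top_iff_one _).1 e)
        have h1 := congrArg (· * (single g (1 : ℚ) - 1)) ha
        simp only [mul_assoc, geom_sum_mul, one_mul] at h1
        rw [single_pow, pow_orderOf_eq_one, one_pow, ← one_def, sub_self, mul_zero] at h1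
        exact hg ((single_left_inj one_ne_zero).1 (sub_eq_zero.1 h1.symm))
      · simp only [map_sum, map_pow, lift_single, h, one_smul, one_pow, Finset.sum_const,
          Finset.card_range, Nat.cast_smul_eq_nsmul]
    · have hi : Function.Injective fun j : ℤ => g ^ j := injective_zpow_iff_not_isOfFinOrder.2 hf
      let φ : G → ℚ := Function.extend (fun j : ℤ => g ^ j) (fun j => (2 : ℚ) ^ j) 0
      have h1 : ∀ j : ℤ, φ (g ^ j) = 2 ^ j := fun j => hi.extend_apply _ _ j
      have h2 : ∀ h, (¬ ∃ j : ℤ, g ^ j = h) → φ h = 0 := fun h hh =>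
        Function.extend_apply' _ _ _ hh
      refine ⟨single g 1 - single 1 2, -1, by norm_num, fun e => ?_, fun n ρ h => ?_⟩
      · refine one_notMem_kil (φ := φ) (by simpa using (h1 0).trans_ne (by simp)) (top_le_iff.1 ?_)
        rw [← e, Ideal.span_le, Set.singleton_subset_iff]
        refine (sub_mem_kil φ g 2).2 fun h => ?_
        by_cases hh : ∃ j : ℤ, g ^ j = h
        · obtain ⟨j, rfl⟩ := hh
          rw [← _root_.zpow_add_one, h1, h1, zpow_add_one₀ two_ne_zero, mul_comm]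
        · rw [h2 h hh, mul_zero]
          exact h2 _ fun ⟨j, hj⟩ => hh ⟨j - 1, by rw [_root_.zpow_sub_one, hj, mul_inv_cancel_right]⟩
      · rw [map_sub, lift_single, lift_single, h, map_one, ← sub_smul]
        norm_num
  obtain ⟨x, c, hc, hx, h⟩ := key
  obtain ⟨n, ρ, v, hv, h₁⟩ := hS G hG {x} ((hw_self hW).2.1 {x} fun T hT e =>
    hx (top_le_iff.1 (e ▸ Ideal.span_mono hT)))
  have hρ : g ∉ ρ.ker := fun hk => hv (by
    have := h₁ x rfl
    rw [h n ρ hk, smul_mulVec, one_mulVec] at this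
    exact (smul_eq_zero.1 this).resolve_left hc)
  obtain ⟨D, -, h3, h4⟩ := sep' ρ.ker (hL G hG hW n ρ) le_rfl hρ
  exact ⟨D, h3, h4⟩

end Pool.Agent.MP_6a4325_al.H98
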