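import Pool.Agent.MP_6a4325_al.H62.Base2

/-!
Row GEN: a torsion free abelian normal subgroup of infinite rank has an injective character whose
values generate a field.
-/

set_option autoImplicit false

namespace Pool.Agent.MP_6a4325_al.H98

open Pool.Agent.MP_6a4325_al.H62 Cardinal

/-- representatives of all the primes of the polynomial ring, indexed by the set of variables -/
theorem exists_primes (F ι : Type) [Field F] [Finite F] [Infinite ι] :
    ∃ r : ι → MvPolynomial ι F, (∀ i, Prime (r i)) ∧ (∀ i j, r i ∣ r j → i = j) ∧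
      ∀ q : MvPolynomial ι F, Prime q → ∃ i, Associated (r i) q := by
  let I := {a : Associates (MvPolynomial ι F) // Prime a}
  have h1 : #I ≤ #ι := by
    refine (mk_subtype_le _).trans ((mk_le_of_surjective Associates.mk_surjective).trans
      (MvPolynomial.cardinalMk_le_max.trans ?_))
    exact sup_le (sup_le ((lt_aleph0_of_finite F).le.trans (aleph0_le_mk ι)) le_rfl)
      (aleph0_le_mk ι)
  have h2 : #ι ≤ #I := mk_le_of_injective
    (f := fun i => (⟨Associates.mk (MvPolynomial.X i),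
      Associates.prime_mk.2 MvPolynomial.X_prime⟩ : I)) fun i j e =>
      MvPolynomial.X_dvd_X.1 (Associates.mk_eq_mk_iff_associated.1 (congrArg Subtype.val e)).dvd
  obtain ⟨e⟩ := Cardinal.eq.1 (le_antisymm h2 h1)
  choose r hr using fun i => Associates.mk_surjective (e i).1
  have hp : ∀ i, Prime (r i) := fun i => Associates.prime_mk.1 (hr i ▸ (e i).2)
  refine ⟨r, hp, fun i j h => e.injective (Subtype.ext ?_), fun q hq => ?_⟩
  · rw [← hr, ← hr]
    exact Associates.mk_eq_mk_iff_associated.2 ((hp i).associated_of_dvd (hp j) h)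
  · refine ⟨e.symm ⟨Associates.mk q, Associates.prime_mk.2 hq⟩,
      Associates.mk_eq_mk_iff_associated.1 ?_⟩
    rw [hr, Equiv.apply_symm_apply]

theorem pos_of_prod_eq {R ι : Type} [CommRing R] {r : ι → R} (hp : ∀ i, Prime (r i))
    (hd : ∀ i j, r i ∣ r j → i = j) (s : Finset ι) (a b : ι → ℕ)
    (h : ∏ i ∈ s, r i ^ a i = ∏ i ∈ s, r i ^ b i) {i : ι} (hi : i ∈ s) (ha : 0 < a i) :
    0 < b i := by
  have h1 : r i ∣ ∏ j ∈ s, r j ^ b j :=
    h ▸ (dvd_pow_self _ ha.ne').trans (Finset.dvd_prod_of_mem (fun j => r j ^ a j) hi)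
  obtain ⟨j, -, h2⟩ := ((hp i).dvd_finsetProd_iff _).1 h1
  obtain rfl := hd i j ((hp i).dvd_of_dvd_pow h2)
  refine Nat.pos_of_ne_zero fun e => (hp i).not_dvd_one ?_
  rwa [e, pow_zero] at h2

/-- independent units such that every subalgebra containing them and their inverses is a field -/
theorem exists_units (F ι : Type) [Field F] [Finite F] [Infinite ι] :
    ∃ (K : Type) (_ : Field K) (_ : Algebra F K) (_ : IsAlgClosed K) (w : ι → Kˣ),
      LinearIndependent ℤ (fun i => Additive.ofMul (w i)) ∧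
      ∀ A : Subalgebra F K, (∀ i, (w i : K) ∈ A ∧ (w i : K)⁻¹ ∈ A) → ∀ x ∈ A, x⁻¹ ∈ A := by
  obtain ⟨r, hp, hd, hall⟩ := exists_primes F ι
  let R := MvPolynomial ι F
  let K₀ := FractionRing R
  let K := AlgebraicClosure K₀
  have hinj : Function.Injective (algebraMap R K) := by
    rw [IsScalarTower.algebraMap_eq R K₀ K, RingHom.coe_comp]
    exact (algebraMap K₀ K).injective.comp (IsFractionRing.injective R K₀)
  let w : ι → Kˣ := fun i => Units.mk0 (algebraMap R K (r i))
    ((map_ne_zero_iff _ hinj).2 (hp i).ne_zero)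
  refine ⟨K, inferInstance, inferInstance, inferInstance, w, ?_, fun A hA x hx => ?_⟩
  · refine linearIndependent_iff'.2 fun s g hg i hi => ?_
    have h1 : ∏ j ∈ s, w j ^ g j = 1 := by
      have := congrArg Additive.toMul hg
      simpa [toMul_sum] using this
    have h2 : ∏ j ∈ s, w j ^ (g j).toNat = ∏ j ∈ s, w j ^ (-g j).toNat := by
      rw [← div_eq_one, ← Finset.prod_div_distrib, ← h1]
      refine Finset.prod_congr rfl fun j _ => ?_
      rw [← zpow_natCast, ← zpow_natCast, div_eq_mul_inv, ← zpow_sub, Int.toNat_sub_toNat_neg]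
    have h3 : ∏ j ∈ s, r j ^ (g j).toNat = ∏ j ∈ s, r j ^ (-g j).toNat := by
      apply hinj
      have := congrArg Units.val h2
      simpa [w] using this
    have h4 := pos_of_prod_eq hp hd s _ _ h3 hi
    have h5 := pos_of_prod_eq hp hd s _ _ h3.symm hi
    omega
  · have h1 : ∀ a : R, algebraMap R K a ∈ A ∧ (algebraMap R K a)⁻¹ ∈ A := fun a => by
      have hu : ∀ u : R, IsUnit u → algebraMap R K u ∈ A ∧ (algebraMap R K u)⁻¹ ∈ A := by
        intro u hu
        obtain ⟨c, -, rfl⟩ := MvPolynomial.isUnit_iff_eq_C_of_isReduced.1 hu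
        have e : algebraMap R K (MvPolynomial.C c) = algebraMap F K c :=
          (IsScalarTower.algebraMap_apply F R K c).symm
        rw [e, ← map_inv₀]
        exact ⟨A.algebraMap_mem _, A.algebraMap_mem _⟩
      have hm : ∀ a b : R, (algebraMap R K a ∈ A ∧ (algebraMap R K a)⁻¹ ∈ A) →
          (algebraMap R K b ∈ A ∧ (algebraMap R K b)⁻¹ ∈ A) →
          algebraMap R K (a * b) ∈ A ∧ (algebraMap R K (a * b))⁻¹ ∈ A := fun a b ha hb => by
        rw [map_mul, mul_inv]
        exact ⟨A.mul_mem ha.1 hb.1, A.mul_mem ha.2 hb.2⟩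
      refine UniqueFactorizationMonoid.induction_on_prime a ?_ hu fun a q _ hq ha => hm _ _ ?_ ha
      · rw [map_zero, inv_zero]
        exact ⟨A.zero_mem, A.zero_mem⟩
      · obtain ⟨i, u, rfl⟩ := hall q hq
        exact hm _ _ (hA i) (hu _ u.isUnit)
    let A' : Subalgebra K₀ K :=
      { A.toSubsemiring with
        algebraMap_mem' := fun y => by
          obtain ⟨a, b, -, rfl⟩ := IsFractionRing.div_surjective (A := R) y
          rw [map_div₀, ← IsScalarTower.algebraMap_apply, ← IsScalarTower.algebraMap_apply,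
            div_eq_mul_inv]
          exact A.mul_mem (h1 a).1 (h1 b).2 }
    exact A'.inv_mem_of_algebraic (x := ⟨x, hx⟩) (Algebra.IsAlgebraic.isAlgebraic _)

/-- the units of an algebraically closed field form a divisible group -/
theorem baer_units (K : Type) [Field K] [IsAlgClosed K] : Module.Baer ℤ (Additive Kˣ) := by
  have : DivisibleBy (Additive Kˣ) ℕ := divisibleByOfSMulRightSurj _ _ fun {n} hn x => by
    obtain ⟨z, hz⟩ := IsAlgClosed.exists_pow_nat_eq ((Additive.toMul x : Kˣ) : K)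
      (Nat.pos_of_ne_zero hn)
    have h0 : z ≠ 0 := fun e => Units.ne_zero _ (by rw [← hz, e, zero_pow hn])
    exact ⟨Additive.ofMul (Units.mk0 z h0), Additive.toMul.injective (Units.ext hz)⟩
  have := AddGroup.divisibleByIntOfDivisibleByNat (Additive Kˣ)
  exact Module.Baer.of_divisible _

/-- an injective character of a torsion free abelian group of infinite rank -/
theorem exists_char (F B : Type) [Field F] [Finite F] [CommGroup B]
    (tf : ∀ b : B, IsOfFinOrder b → b = 1)
    (rk : ∀ T : Finset B, ∃ b : B, ∀ m : ℕ, 0 < m → b ^ m ∉ Subgroup.closure (↑T : Set B)) :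
    ∃ (K : Type) (_ : Field K) (_ : Algebra F K) (χ : B →* Kˣ), Function.Injective χ ∧
      ∀ A : Subalgebra F K, (∀ b, (χ b : K) ∈ A) → ∀ x ∈ A, x⁻¹ ∈ A := by
  obtain ⟨s, hs, hmax⟩ := exists_maximal_linearIndepOn ℤ (fun b : B => Additive.ofMul b)
  have hpow : ∀ b : B, ∃ a : ℤ, a ≠ 0 ∧
      a • Additive.ofMul b ∈ Submodule.span ℤ ((fun b : B => Additive.ofMul b) '' s) := fun b => by
    by_cases hb : b ∈ s
    · exact ⟨1, one_ne_zero, by rw [one_smul]; exact Submodule.subset_span ⟨b, hb, rfl⟩⟩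
    · exact hmax b hb
  have hinf : s.Infinite := fun hf => by
    obtain ⟨b, hb⟩ := rk hf.toFinset
    obtain ⟨a, ha, h⟩ := hpow b
    have h1 : ∀ x ∈ Submodule.span ℤ ((fun b : B => Additive.ofMul b) '' s),
        Additive.toMul x ∈ Subgroup.closure s := fun x hx => by
      induction hx using Submodule.span_induction with
      | mem x hx =>
        obtain ⟨c, hc, rfl⟩ := hx
        exact Subgroup.subset_closure hc
      | zero => exact one_mem _
      | add x y _ _ hx hy => exact mul_mem hx hy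
      | smul c x _ hx => exact zpow_mem hx c
    have h2 : b ^ a ∈ Subgroup.closure s := h1 _ h
    refine hb a.natAbs (Int.natAbs_pos.2 ha) ?_
    rw [hf.coe_toFinset]
    rcases Int.natAbs_eq a with e | e
    · rwa [e, zpow_natCast] at h2
    · rwa [e, zpow_neg, inv_mem_iff, zpow_natCast] at h2
  have := hinf.to_subtype
  obtain ⟨K, _, _, _, w, hw, hA⟩ := exists_units F s
  obtain ⟨h, hh⟩ := (baer_units K).extension_property
    (Finsupp.linearCombination ℤ fun i : s => Additive.ofMul (i : B)) hs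
    (Finsupp.linearCombination ℤ fun i => Additive.ofMul (w i))
  let χ : B →* Kˣ := MonoidHom.toAdditive.symm h.toAddMonoidHom
  have hχ : ∀ b, Additive.ofMul (χ b) = h (Additive.ofMul b) := fun _ => rfl
  refine ⟨K, inferInstance, inferInstance, χ, (injective_iff_map_eq_one χ).2 fun b hb => ?_,
    fun A hA' => hA A fun i => ?_⟩
  · obtain ⟨a, ha, h1⟩ := hpow b
    rw [Set.image_eq_range, ← Finsupp.range_linearCombination] at h1
    obtain ⟨l, hl⟩ := h1
    have h2 := LinearMap.congr_fun hh l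
    rw [LinearMap.comp_apply, hl, map_smul, ← hχ, hb, ofMul_one, smul_zero] at h2
    rw [linearIndependent_iff.1 hw l h2.symm, map_zero] at hl
    exact tf b (isOfFinOrder_iff_zpow_eq_one.2 ⟨a, ha, congrArg Additive.toMul hl.symm⟩)
  · have h2 := LinearMap.congr_fun hh (Finsupp.single i 1)
    rw [LinearMap.comp_apply, Finsupp.linearCombination_single, Finsupp.linearCombination_single,
      one_smul, one_smul, ← hχ] at h2
    rw [← Additive.ofMul.injective h2, ← Units.val_inv_eq_inv_val, ← map_inv]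
    exact ⟨hA' _, hA' _⟩

theorem genC : SCL → SGenC := by
  intro hcl p _ G _ hW B hB hc htf hrk
  classical
  let := hc.commGroup
  obtain ⟨K, _, _, χ, hinj, hA⟩ := exists_char (ZMod p) B
    (fun b hb => Subtype.ext (htf b b.2 (B.subtype.isOfFinOrder hb))) fun T => by
      by_contra h
      push Not at h
      refine hrk ⟨T.image Subtype.val, fun t ht => ?_, fun b hb => ?_⟩
      · obtain ⟨x, -, rfl⟩ := Finset.mem_image.1 ht
        exact x.2
      · obtain ⟨m, hm, h1⟩ := h ⟨b, hb⟩
        refine ⟨m, hm, ?_⟩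
        have h2 := Subgroup.mem_map_of_mem B.subtype h1
        rwa [MonoidHom.map_closure, ← Finset.coe_image] at h2
  obtain ⟨ψ, hψ, hψχ⟩ := exists_isCh χ
  have hspan : ∀ z : K, z ∈ Submodule.span (ZMod p) (ψ '' (B : Set G)) ↔
      ∃ y : MonoidAlgebra (ZMod p) G, Supp B y ∧ evc ψ 1 y = z := fun z => by
    have e : ∀ y : MonoidAlgebra (ZMod p) G,
        evc ψ 1 y = Finsupp.linearCombination (ZMod p) ψ y.coeff := fun y => by
      simp [evc, Finsupp.linearCombination_apply]
    rw [Finsupp.mem_span_image_iff_linearCombination]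
    exact ⟨fun ⟨l, h1, h2⟩ => ⟨MonoidAlgebra.ofCoeff l, fun g hg => h1 hg, (e _).trans h2⟩,
      fun ⟨y, h1, h2⟩ => ⟨y.coeff, fun g hg => h1 g hg, (e _).symm.trans h2⟩⟩
  let A : Subalgebra (ZMod p) K := (Submodule.span (ZMod p) (ψ '' (B : Set G))).toSubalgebra
    (Submodule.subset_span ⟨1, B.one_mem, hψ.1⟩) fun x y hx hy => by
      have h1 := Submodule.mul_mem_mul hx hy
      rw [Submodule.span_mul_span] at h1
      refine Submodule.span_mono ?_ h1
      rintro _ ⟨_, ⟨a, ha, rfl⟩, _, ⟨b, hb, rfl⟩, rfl⟩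
      exact ⟨a * b, B.mul_mem ha hb, hψ.2 a ha b hb⟩
  obtain ⟨N, hN, hNψ⟩ := hcl (ZMod p) K G hW B hB hc ψ hψ fun x hx h0 => by
    obtain ⟨y, h1, h2⟩ := (hspan _).1 (hA A (fun b => Submodule.subset_span ⟨b, b.2, hψχ b⟩) _
      ((hspan _).2 ⟨x, hx, rfl⟩))
    exact ⟨y, h1, by rw [h2, inv_mul_cancel₀ h0]⟩
  refine Subgroup.finiteIndex_of_le (H := N) fun g hg => Subgroup.mem_centralizer_iff.2 fun b hb => ?_
  have h1 := hNψ g hg b hb
  rw [hψχ ⟨_, hB.conj_mem b hb g⟩, hψχ ⟨b, hb⟩] at h1
  have h2 : g * b * g⁻¹ = b := congrArg Subtype.val (hinj (Units.ext h1))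
  exact (mul_inv_eq_iff_eq_mul.1 h2).symm

end Pool.Agent.MP_6a4325_al.H98
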